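import Pool.Agent.H.MP_50639e_co.Chk

set_option autoImplicit false

namespace Pool.Agent.H.MP_50639e_co

theorem brec {α : Type} (x y : α) (b : Bool) :
    @Bool.rec (fun _ => α) x y b = if b = true then y else x := by cases b <;> rfl

theorem cg_eq (C x : ℕ) : cg C x = (C >>> (4 * x)) % 2 ^ 4 := rfl

theorem zg_eq (C x : ℕ) : zg C x = (C >>> (16 * x)) % 2 ^ 16 := rfl

theorem cg_lt (C x : ℕ) : cg C x < 16 := Nat.mod_lt _ (by norm_num)

theorem cg_zero (p : ℕ) : cg p 0 = p % 16 := by simp [cg_eq]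

theorem cg_div (p i : ℕ) : cg (p / 16) i = cg p (i + 1) := by
  simp only [cg_eq, Nat.shiftRight_eq_div_pow, Nat.div_div_eq_div_mul]
  congr 2
  rw [Nat.mul_add, Nat.pow_add]
  omega

theorem cg_div3 (p i : ℕ) : cg (p / 4096) i = cg p (i + 3) := by
  rw [← cg_div, ← cg_div, ← cg_div, Nat.div_div_eq_div_mul, Nat.div_div_eq_div_mul]

theorem mod256 (p : ℕ) : p % 256 = cg p 0 + 16 * cg p 1 := by
  rw [← cg_div, cg_zero, cg_zero]
  omega

theorem cg_or (C D y : ℕ) : cg (C ||| D) y = cg C y ||| cg D y := by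
  apply Nat.eq_of_testBit_eq
  intro k
  simp only [cg_eq, Nat.testBit_mod_two_pow, Nat.testBit_shiftRight, Nat.testBit_or]
  cases decide (k < 4) <;> simp

theorem cg_shl {w : ℕ} (hw : w < 16) (x y : ℕ) :
    cg (w <<< (4 * x)) y = if y = x then w else 0 := by
  apply Nat.eq_of_testBit_eq
  intro k
  have hb : ∀ m, 4 ≤ m → w.testBit m = false := fun m hm =>
    Nat.testBit_lt_two_pow (lt_of_lt_of_le hw (Nat.pow_le_pow_right (by norm_num) hm :
      2 ^ 4 ≤ 2 ^ m))
  simp only [cg_eq, Nat.testBit_mod_two_pow, Nat.testBit_shiftRight, Nat.testBit_shiftLeft]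
  by_cases hk : k < 4
  · split_ifs with h
    · subst h
      simp [hk]
    · by_cases h2 : 4 * y + k ≥ 4 * x
      · simp [hb (4 * y + k - 4 * x) (by omega)]
      · simp [h2]
  · split_ifs <;> simp [hk, hb k (by omega)]

theorem zg_bit (Z x k : ℕ) (hk : k < 16) : (zg Z x).testBit k = Z.testBit (16 * x + k) := by
  simp [zg_eq, Nat.testBit_mod_two_pow, Nat.testBit_shiftRight, hk, -Nat.reducePow]

theorem kil_bit {Z x m y k : ℕ} (hm : m < 65536) (hk : k < 16)
    (h : (kil Z x m).testBit (16 * y + k) = true) :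
    Z.testBit (16 * y + k) = true ∨ (y = x ∧ m.testBit k = true) := by
  have e : kil Z x m = Z ||| (m <<< (16 * x)) := rfl
  rw [e, Nat.testBit_or, Bool.or_eq_true, Nat.testBit_shiftLeft] at h
  rcases h with h | h
  · exact Or.inl h
  · simp only [Bool.and_eq_true, decide_eq_true_eq] at h
    have : 16 * y + k - 16 * x < 16 := by
      by_contra hc
      have := Nat.testBit_lt_two_pow (lt_of_lt_of_le hm
        (Nat.pow_le_pow_right (by norm_num) (not_lt.1 hc) : 2 ^ 16 ≤ 2 ^ _))
      rw [this] at h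
      exact absurd h.2 (by simp)
    have e2 : y = x := by omega
    subst e2
    refine Or.inr ⟨rfl, ?_⟩
    simpa using h.2

theorem row_bit {i b : ℕ} (hb : b < 10) (h : (row ^^^ (1 <<< (256 * b))).testBit i = true) :
    i % 256 = 0 ∧ i ≠ 256 * b := by
  simp only [row, Nat.testBit_xor, Nat.testBit_or, Nat.one_shiftLeft, Nat.testBit_two_pow,
    bne_iff_ne, ne_eq, -Nat.reducePow] at h
  by_cases e : 256 * b = i
  · exfalso
    apply h
    simp only [e, decide_true, Bool.or_eq_true, decide_eq_true_eq]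
    omega
  · simp only [e, decide_false, Bool.not_eq_false, Bool.or_eq_true, decide_eq_true_eq] at h
    omega

theorem setZ_bit {Z a b w x y k : ℕ} (ha : a < 10) (hb : b < 10) (hw : w < 16) (hx : x < 10)
    (hk : k < 16) (h : (setZ Z a b w).testBit (16 * (x + 16 * y) + k) = true) :
    Z.testBit (16 * (x + 16 * y) + k) = true ∨
      (k = w ∧ ((x = a ∧ y ≠ b) ∨ (x = b ∧ y ≠ a))) := by
  have e : setZ Z a b w = Z ||| (((row ^^^ (1 <<< (256 * b))) <<< (16 * a + w)) |||
    ((row ^^^ (1 <<< (256 * a))) <<< (16 * b + w))) := rfl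
  simp only [e, Nat.testBit_or, Bool.or_eq_true, Nat.testBit_shiftLeft, Bool.and_eq_true,
    decide_eq_true_eq] at h
  rcases h with h | h | h
  · exact Or.inl h
  · have := row_bit hb h.2
    right
    omega
  · have := row_bit ha h.2
    right
    omega

theorem setC_cg {C a b w : ℕ} (hw : w < 15) (y : ℕ) (h1 : cg C (a + 16 * b) = 0)
    (h2 : cg C (b + 16 * a) = 0) :
    cg (setC C a b w) y = if y = a + 16 * b ∨ y = b + 16 * a then w + 1 else cg C y := by
  have e : setC C a b w = C ||| (((w + 1) <<< (4 * (a + 16 * b))) |||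
    ((w + 1) <<< (4 * (b + 16 * a)))) := rfl
  rw [e, cg_or, cg_or, cg_shl (by omega), cg_shl (by omega)]
  by_cases e1 : y = a + 16 * b <;> by_cases e2 : y = b + 16 * a
  · simp [← e1, ← e2, e1 ▸ h1]
  · simp [← e1, e2, e1 ▸ h1]
  · simp [e1, ← e2, e2 ▸ h2]
  · simp [e1, e2]

theorem and_zero {Y t m : ℕ} (h : Y &&& t = 0) (hm : t.testBit m = true) : Y.testBit m = false := by
  have := congrArg (fun z => Nat.testBit z m) h
  simpa [Nat.testBit_and, hm] using this

theorem seg_succ (C n p Y : ℕ) : seg C (n + 1) p Y =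
    if Y &&& (2 ^ cg C (cg p 0 + 16 * cg p 1) ||| 2 ^ (16 + cg p 1)) = 0 then
      seg C n (p / 16) (Y ||| (2 ^ cg C (cg p 0 + 16 * cg p 1) ||| 2 ^ (16 + cg p 1))) else 0 := by
  have e : seg C (n + 1) p Y = @Bool.rec (fun _ => ℕ) 0 (seg C n (p / 16)
    (Y ||| (1 <<< cg C (p % 256) ||| 65536 <<< (p / 16 % 16))))
    (Nat.beq (Y &&& (1 <<< cg C (p % 256) ||| 65536 <<< (p / 16 % 16))) 0) := rfl
  have e2 : 65536 <<< (p / 16 % 16) = 2 ^ (16 + p / 16 % 16) := by
    rw [Nat.shiftLeft_eq, Nat.pow_add]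
  have e1 : p / 16 % 16 = cg p 1 := by rw [← cg_zero, cg_div]
  rw [e, brec, Nat.one_shiftLeft, e2, e1, mod256]
  simp only [Nat.beq_eq]

theorem seg_spec (C : ℕ) : ∀ (n p Y : ℕ), seg C n p Y ≠ 0 →
    (∀ m, Y.testBit m = true → (seg C n p Y).testBit m = true) ∧ ∀ i < n,
      Y.testBit (cg C (cg p i + 16 * cg p (i + 1))) = false ∧
      Y.testBit (16 + cg p (i + 1)) = false ∧
      (seg C n p Y).testBit (cg C (cg p i + 16 * cg p (i + 1))) = true ∧
      ∀ j, i < j → j < n → cg C (cg p i + 16 * cg p (i + 1)) ≠ cg C (cg p j + 16 * cg p (j + 1)) ∧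
        cg p (i + 1) ≠ cg p (j + 1)
  | 0, _, _, _ => ⟨fun _ h => h, fun _ h => absurd h (by omega)⟩
  | n + 1, p, Y, h => by
    rw [seg_succ] at h ⊢
    split_ifs at h ⊢ with h0
    swap
    · exact absurd rfl h
    obtain ⟨mono, H⟩ := seg_spec C n _ _ h
    simp only [cg_div] at H
    have t1 : (2 ^ cg C (cg p 0 + 16 * cg p 1) ||| 2 ^ (16 + cg p 1)).testBit
      (cg C (cg p 0 + 16 * cg p 1)) = true := by simp [Nat.testBit_or]
    have t2 : (2 ^ cg C (cg p 0 + 16 * cg p 1) ||| 2 ^ (16 + cg p 1)).testBit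
      (16 + cg p 1) = true := by simp [Nat.testBit_or]
    refine ⟨fun m hm => mono m (by simp [Nat.testBit_or, hm]), fun i hi => ?_⟩
    rcases i with _ | i
    · rw [Nat.zero_add]
      refine ⟨and_zero h0 t1, and_zero h0 t2, mono _ (by rw [Nat.testBit_or, t1]; simp), ?_⟩
      intro j hj hjn
      obtain ⟨j, rfl⟩ : ∃ j', j = j' + 1 := ⟨j - 1, by omega⟩
      obtain ⟨a, b, -, -⟩ := H j (by omega)
      constructor
      · intro e
        rw [← e, Nat.testBit_or, t1] at a
        simp at a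
      · intro e
        rw [← e, Nat.testBit_or, t2] at b
        simp at b
    · obtain ⟨a, b, c, d⟩ := H i (by omega)
      rw [Nat.testBit_or, Bool.or_eq_false_iff] at a b
      refine ⟨a.1, b.1, c, fun j hj hjn => ?_⟩
      obtain ⟨j, rfl⟩ : ∃ j', j = j' + 1 := ⟨j - 1, by omega⟩
      exact d j (by omega) (by omega)

theorem dis_succ (n p Y : ℕ) : dis (n + 1) p Y =
    if Y &&& 2 ^ (p % 16) = 0 then dis n (p / 16) (Y ||| 2 ^ (p % 16)) else false := by
  have e : dis (n + 1) p Y = @Bool.rec (fun _ => Bool) false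
    (dis n (p / 16) (Y ||| 1 <<< (p % 16))) (Nat.beq (Y &&& 1 <<< (p % 16)) 0) := rfl
  rw [e, brec, Nat.one_shiftLeft]
  simp only [Nat.beq_eq]

theorem dis_spec : ∀ (n p Y : ℕ), dis n p Y = true →
    ∀ i < n, Y.testBit (cg p i) = false ∧ ∀ j, i < j → j < n → cg p i ≠ cg p j
  | 0, _, _, _ => fun _ h => absurd h (by omega)
  | n + 1, p, Y, h => by
    rw [dis_succ] at h
    split_ifs at h with h0
    have H := dis_spec n _ _ h
    rw [← cg_zero] at *
    simp only [cg_div] at H
    intro i hi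
    rcases i with _ | i
    · refine ⟨and_zero h0 (by simp), fun j hj hjn e => ?_⟩
      obtain ⟨j, rfl⟩ : ∃ j', j = j' + 1 := ⟨j - 1, by omega⟩
      have a := (H j (by omega)).1
      rw [← e, Nat.testBit_or] at a
      simp at a
    · obtain ⟨a, d⟩ := H i (by omega)
      rw [Nat.testBit_or, Bool.or_eq_false_iff] at a
      refine ⟨a.1, fun j hj hjn => ?_⟩
      obtain ⟨j, rfl⟩ : ∃ j', j = j' + 1 := ⟨j - 1, by omega⟩
      exact d j (by omega) (by omega)

theorem dis_inj {n p Y : ℕ} (h : dis n p Y = true) : Set.InjOn (cg p) (Set.Iio n) := by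
  intro i hi j hj e
  rcases lt_trichotomy i j with l | l | l
  · exact absurd e ((dis_spec n p Y h i hi).2 j l hj)
  · exact l
  · exact absurd e.symm ((dis_spec n p Y h j hj).2 i l hi)

theorem mat_spec (C π μ : ℕ) : ∀ (n q : ℕ), mat C π μ n q = true → ∀ i < n,
    cg C (cg π (cg q (3 * i)) + 16 * cg π (cg q (3 * i + 1))) = cg μ (cg q (3 * i + 2))
  | 0, _, _ => fun _ h => absurd h (by omega)
  | n + 1, q, h => by
    have e : mat C π μ (n + 1) q = @Bool.rec (fun _ => Bool) false (mat C π μ n (q / 4096))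
      (Nat.beq (cg C (cg π (q % 16) + 16 * cg π (cg q 1))) (cg μ (cg q 2))) := rfl
    rw [e, brec] at h
    simp only [Nat.beq_eq] at h
    split_ifs at h with h0
    have H := mat_spec C π μ n _ h
    intro i hi
    rcases i with _ | i
    · rw [← cg_zero] at h0
      exact h0
    · have := H i (by omega)
      simp only [cg_div3] at this
      rw [show 3 * (i + 1) = 3 * i + 3 by ring, show 3 * i + 3 + 1 = 3 * i + 1 + 3 by ring,
        show 3 * i + 3 + 2 = 3 * i + 2 + 3 by ring]
      exact this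

theorem pcnt_eq (a : ℕ) : ∀ n, pcnt a n = ((Finset.range n).filter fun k => a.testBit k = true).card
  | 0 => rfl
  | n + 1 => by
    have e : pcnt a (n + 1) = pcnt a n + (a >>> n) % 2 := rfl
    rw [e, pcnt_eq a n, Finset.range_add_one, Finset.filter_insert, Nat.shiftRight_eq_div_pow]
    split_ifs with h
    · rw [Finset.card_insert_of_notMem (by simp)]
      rw [Nat.testBit_eq_decide_div_mod_eq] at h
      simpa using h
    · rw [Nat.testBit_eq_decide_div_mod_eq] at h
      have : a / 2 ^ n % 2 ≠ 1 := by simpa using h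
      omega

theorem hal_spec (Z v cnt : ℕ) : ∀ (n q pv acc : ℕ) (T : Finset ℕ), hal Z v cnt n q pv acc = true →
    pv ≤ 10 → (∀ y ∈ T, pv ≤ y ∧ y < 10 ∧ y ≠ v ∧ ∀ k < 16, acc.testBit k = false →
      Z.testBit (16 * (v + 16 * y) + k) = true ∨ Z.testBit (16 * (y + 16 * v) + k) = true) →
    ∃ (acc' : ℕ) (T' : Finset ℕ), T'.card = T.card + n ∧ acc' < 2 ^ 15 ∧ pcnt acc' 15 < cnt ∧
      ∀ y ∈ T', y < 10 ∧ y ≠ v ∧ ∀ k < 16, acc'.testBit k = false →
      Z.testBit (16 * (v + 16 * y) + k) = true ∨ Z.testBit (16 * (y + 16 * v) + k) = true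
  | 0, q, pv, acc, T, h, _, H => by
    have e : hal Z v cnt 0 q pv acc = @Bool.rec (fun _ => Bool)
      (and (Nat.ble acc 32767) (Nat.ble (pcnt acc 15 + 1) cnt)) (Nat.ble 1 cnt)
      (Nat.beq acc 0) := rfl
    rw [e, brec] at h
    simp only [Nat.beq_eq] at h
    refine ⟨acc, T, rfl, ?_, ?_, fun y hy => (H y hy).2⟩ <;> split_ifs at h with h0
    · omega
    · simp only [Bool.and_eq_true, Nat.ble_eq] at h
      omega
    · rw [h0]
      exact Nat.ble_eq.mp h
    · simp only [Bool.and_eq_true, Nat.ble_eq] at h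
      omega
  | n + 1, q, pv, acc, T, h, hp, H => by
    have e : hal Z v cnt (n + 1) q pv acc = @Bool.rec (fun _ => Bool) false
      (@Bool.rec (fun _ => Bool) (hal Z v cnt n (q / 16) (q % 16) (acc ||| (65535 ^^^
        (zg Z (v + 16 * (q % 16)) ||| zg Z (q % 16 + 16 * v))))) false (Nat.beq (q % 16) v))
      (Nat.ble (q % 16 + 1) pv) := rfl
    rw [e, brec, brec] at h
    simp only [Nat.beq_eq, Nat.ble_eq] at h
    split_ifs at h with h1 h2
    have nm : q % 16 ∉ T := fun hy => by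
      have := (H _ hy).1
      omega
    obtain ⟨acc', T', c, r⟩ := hal_spec Z v cnt n _ _ _ (insert (q % 16) T) h (by omega) (by
      intro y hy
      rcases Finset.mem_insert.1 hy with rfl | hy
      · refine ⟨le_rfl, by omega, h2, fun k hk hb => ?_⟩
        have t : Nat.testBit 65535 k = true := by
          have := @Nat.testBit_two_pow_sub_one 16 k
          simpa [hk] using this
        rw [Nat.testBit_or, Bool.or_eq_false_iff, Nat.testBit_xor, t, Nat.testBit_or,
          zg_bit _ _ _ hk, zg_bit _ _ _ hk] at hb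
        have := hb.2
        revert this
        cases Z.testBit (16 * (v + 16 * (q % 16)) + k) <;>
          cases Z.testBit (16 * (q % 16 + 16 * v) + k) <;> simp
      · obtain ⟨a, b, c, d⟩ := H y hy
        refine ⟨by omega, b, c, fun k hk hb => d k hk ?_⟩
        rw [Nat.testBit_or, Bool.or_eq_false_iff] at hb
        exact hb.1)
    rw [Finset.card_insert_of_notMem nm] at c
    exact ⟨acc', T', by omega, r⟩

end Pool.Agent.H.MP_50639e_co
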