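import Pool.Agent.H.MP_50639e_co.A

set_option autoImplicit false

namespace Pool.Agent.H.MP_50639e_co

structure Valid (TL : ℕ) (g : ℕ → ℕ → ℕ) : Prop where
  sym : ∀ a < 10, ∀ b < 10, g a b = g b a
  pro : ∀ a < 10, ∀ b < 10, ∀ c < 10, a ≠ b → a ≠ c → b ≠ c → g a b ≠ g a c
  nor : ∀ p : ℕ → ℕ, (∀ i ≤ TL, p i < 10) → Set.InjOn p (Set.Iio (TL + 1)) →
    ∃ i j, i < j ∧ j < TL ∧ g (p i) (p (i + 1)) = g (p j) (p (j + 1))

theorem Valid.comp {TL : ℕ} {g : ℕ → ℕ → ℕ} (V : Valid TL g) {π : ℕ → ℕ}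
    (h1 : ∀ a < 10, π a < 10) (h2 : Set.InjOn π (Set.Iio 10)) :
    Valid TL fun a b => g (π a) (π b) where
  sym a ha b hb := V.sym _ (h1 a ha) _ (h1 b hb)
  pro a ha b hb c hc ab ac bc := V.pro _ (h1 a ha) _ (h1 b hb) _ (h1 c hc)
    (fun e => ab (h2 ha hb e)) (fun e => ac (h2 ha hc e)) (fun e => bc (h2 hb hc e))
  nor p hp hi := V.nor (fun i => π (p i)) (fun i h => h1 _ (hp i h)) fun i h j h' e =>
    hi h h' (h2 (hp i (Nat.lt_succ_iff.1 h)) (hp j (Nat.lt_succ_iff.1 h')) e)

def Kill (μ : ℕ → ℕ) (nc c k : ℕ) : Prop := (k < nc → c ≠ μ k) ∧ (nc ≤ k → ∃ j < nc, c = μ j)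

structure Inv (g : ℕ → ℕ → ℕ) (μ : ℕ → ℕ) (C Z nc : ℕ) : Prop where
  le : nc ≤ 14
  inj : Set.InjOn μ (Set.Iio nc)
  col : ∀ a < 10, ∀ b < 10, cg C (a + 16 * b) ≠ 0 →
    cg C (a + 16 * b) ≤ nc ∧ g a b = μ (cg C (a + 16 * b) - 1)
  kil : ∀ a < 10, ∀ b < 10, a ≠ b → ∀ k < 16, Z.testBit (16 * (a + 16 * b) + k) = true →
    Kill μ nc (g a b) k

variable {TL : ℕ} {g : ℕ → ℕ → ℕ} {μ : ℕ → ℕ} {C Z nc : ℕ}

theorem Inv.ext (I : Inv g μ C Z nc) (h : nc ≤ 13) {γ : ℕ} (hγ : ∀ j < nc, γ ≠ μ j) :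
    Inv g (Function.update μ nc γ) C Z (nc + 1) where
  le := by omega
  inj i hi j hj e := by
    simp only [Set.mem_Iio] at hi hj
    by_cases h1 : i = nc <;> by_cases h2 : j = nc
    · rw [h1, h2]
    · rw [h1, Function.update_self, Function.update_of_ne h2] at e
      exact absurd e (hγ j (by omega))
    · rw [h2, Function.update_self, Function.update_of_ne h1] at e
      exact absurd e.symm (hγ i (by omega))
    · rw [Function.update_of_ne h1, Function.update_of_ne h2] at e
      exact I.inj (show i < nc by omega) (show j < nc by omega) e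
  col a ha b hb h0 := by
    obtain ⟨x, y⟩ := I.col a ha b hb h0
    exact ⟨by omega, by rw [Function.update_of_ne (by omega)]; exact y⟩
  kil a ha b hb ab k hk hz := by
    obtain ⟨x, y⟩ := I.kil a ha b hb ab k hk hz
    refine ⟨fun h1 => ?_, fun h1 => ?_⟩
    · by_cases e : k = nc
      · obtain ⟨j, hj, e2⟩ := y e.ge
        rw [e, Function.update_self, e2]
        exact (hγ j hj).symm
      · rw [Function.update_of_ne e]
        exact x (by omega)
    · obtain ⟨j, hj, e2⟩ := y (by omega)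
      exact ⟨j, by omega, by rw [Function.update_of_ne hj.ne]; exact e2⟩

theorem okS_spec {a b w : ℕ} (h : okS C nc a b w = true) : a < 10 ∧ b < 10 ∧ a ≠ b ∧ w ≤ nc ∧
    w ≤ 13 ∧ cg C (a + 16 * b) = 0 ∧ cg C (b + 16 * a) = 0 := by
  have e : okS C nc a b w = (((Nat.ble a 9 && Nat.ble b 9) && (!(Nat.beq a b) && Nat.ble w nc)) &&
    (Nat.ble w 13 && Nat.beq (cg C (a + 16 * b) + cg C (b + 16 * a)) 0)) := rfl
  simp only [e, Bool.and_eq_true, Nat.ble_eq, Nat.beq_eq, Bool.not_eq_true'] at h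
  have := Nat.ne_of_beq_eq_false h.1.2.1
  omega

theorem Inv.set (I : Inv g μ C Z nc) (V : Valid TL g) {a b w n' : ℕ} (h : okS C n' a b w = true)
    (hw : w < nc) (e : g a b = μ w) : Inv g μ (setC C a b w) (setZ Z a b w) nc := by
  obtain ⟨ha, hb, ab, -, w13, h1, h2⟩ := okS_spec h
  refine ⟨I.le, I.inj, fun x hx y hy => ?_, fun x hx y hy xy k hk hz => ?_⟩
  · rw [setC_cg (by omega) _ h1 h2]
    split_ifs with c
    · intro _
      refine ⟨by omega, ?_⟩
      rcases c with c | c
      · rw [show x = a by omega, show y = b by omega]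
        exact e
      · rw [show x = b by omega, show y = a by omega, V.sym b hb a ha]
        exact e
    · exact I.col x hx y hy
  · rcases setZ_bit ha hb (by omega) hx hk hz with h3 | ⟨rfl, h3⟩
    · exact I.kil x hx y hy xy k hk h3
    · refine ⟨fun _ => ?_, fun h4 => absurd h4 (by omega)⟩
      rw [← e]
      rcases h3 with ⟨rfl, h3⟩ | ⟨rfl, h3⟩
      · exact V.pro x hx y hy b hb xy ab h3
      · rw [V.sym a ha x hx]
        exact V.pro x hx y hy a ha xy ab.symm h3

theorem Inv.kill (I : Inv g μ C Z nc) {x m : ℕ} (hm : m < 65536)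
    (h : ∀ a < 10, ∀ b < 10, a + 16 * b = x → ∀ k < 16, m.testBit k = true → Kill μ nc (g a b) k) :
    Inv g μ C (Pool.Agent.H.MP_50639e_co.kil Z x m) nc := by
  refine ⟨I.le, I.inj, I.col, fun a ha b hb ab k hk hz => ?_⟩
  rcases kil_bit hm hk hz with h1 | ⟨h1, h2⟩
  · exact I.kil a ha b hb ab k hk h1
  · exact h a ha b hb h1 k hk h2

theorem y0 : ∀ v < 16, Nat.testBit 4227858433 (16 + v) = false → v < 10 := by decide

theorem pop_spec (I : Inv g μ C Z nc) (V : Valid TL g) {x : ℕ} (h : pop C TL x ≠ 0) :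
    ∀ a < 10, ∀ b < 10, a + 16 * b = x % 256 → ∀ k < 16,
      (65535 ^^^ (pop C TL x % 32768 / 2)).testBit k = true → Kill μ nc (g a b) k := by
  have e : pop C TL x = @Bool.rec (fun _ => ℕ) 0
    (seg (C ||| 15 <<< (4 * (x % 256))) TL (x / 256) (4227858433 ||| 65536 <<< (x / 256 % 16)))
    (Nat.ble (x / 256 % 16) 9) := rfl
  have e2 : 65536 <<< (x / 256 % 16) = 2 ^ (16 + cg (x / 256) 0) := by
    rw [Nat.shiftLeft_eq, Nat.pow_add, cg_zero]
  rw [brec, e2, ← cg_zero] at e
  simp only [Nat.ble_eq] at e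
  split_ifs at e with h0
  swap
  · exact absurd e h
  rw [e] at h ⊢
  generalize x / 256 = p at *
  generalize x % 256 = z at *
  obtain ⟨-, H⟩ := seg_spec _ _ _ _ h
  generalize seg (C ||| 15 <<< (4 * z)) TL p (4227858433 ||| 2 ^ (16 + cg p 0)) = Y at *
  have hc : ∀ y, cg (C ||| 15 <<< (4 * z)) y = if y = z then 15 else cg C y := fun y => by
    rw [cg_or, cg_shl (by norm_num)]
    split_ifs
    · have := cg_lt C y
      generalize cg C y = u at this
      interval_cases u <;> rfl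
    · simp
  have lt : ∀ i ≤ TL, cg p i < 10 := fun i hi => by
    rcases i with _ | i
    · omega
    · have := (H i (by omega)).2.1
      rw [Nat.testBit_or, Bool.or_eq_false_iff] at this
      exact y0 _ (cg_lt _ _) this.1
  have ne : ∀ i j, i < j → j ≤ TL → cg p i ≠ cg p j := fun i j ij hj e => by
    obtain ⟨j, rfl⟩ : ∃ j', j = j' + 1 := ⟨j - 1, by omega⟩
    rcases i with _ | i
    · have := (H j (by omega)).2.1
      rw [Nat.testBit_or, Bool.or_eq_false_iff, ← e] at this
      simpa using this.2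
    · exact ((H i (by omega)).2.2.2 j (by omega) (by omega)).2 e
  obtain ⟨i, j, ij, hj, eq⟩ := V.nor (cg p) lt (fun i hi j hj e => by
    simp only [Set.mem_Iio] at hi hj
    rcases lt_trichotomy i j with l | l | l
    · exact absurd e (ne i j l (by omega))
    · exact l
    · exact absurd e.symm (ne j i l (by omega)))
  have key : ∀ i < TL, cg p i + 16 * cg p (i + 1) ≠ z →
      ∃ c, c + 1 = cg (C ||| 15 <<< (4 * z)) (cg p i + 16 * cg p (i + 1)) ∧ c < nc ∧
        g (cg p i) (cg p (i + 1)) = μ c ∧ Y.testBit (c + 1) = true := fun i hi hz => by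
    obtain ⟨h1, -, h3, -⟩ := H i hi
    rw [hc, if_neg hz] at *
    have n0 : cg C (cg p i + 16 * cg p (i + 1)) ≠ 0 := fun e => by
      rw [e] at h1
      simp at h1
    obtain ⟨u, v⟩ := I.col _ (lt i hi.le) _ (lt (i + 1) hi) n0
    exact ⟨_, Nat.sub_add_cancel (by omega), by omega, v, by rwa [Nat.sub_add_cancel (by omega)]⟩
  have dn := ((H i (by omega)).2.2.2 j ij hj).1
  intro a ha b hb hab k hk hb'
  have fin : ∀ c < nc, g a b = μ c → Y.testBit (c + 1) = true → Kill μ nc (g a b) k := by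
    intro c hc' e hY
    refine ⟨fun h1 e' => ?_, fun _ => ⟨c, hc', e⟩⟩
    have : c = k := I.inj hc' h1 (e.symm.trans e')
    subst this
    have t : Nat.testBit 65535 c = true := by
      have := @Nat.testBit_two_pow_sub_one 16 c
      simpa [hk] using this
    have := I.le
    rw [Nat.testBit_xor, t, Nat.testBit_div_two, show 32768 = 2 ^ 15 from rfl,
      Nat.testBit_mod_two_pow, hY] at hb'
    simp at hb'
    omega
  have li := lt i (by omega)
  have li' := lt (i + 1) (by omega)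
  have lj := lt j (by omega)
  have lj' := lt (j + 1) (by omega)
  by_cases zi : cg p i + 16 * cg p (i + 1) = z <;> by_cases zj : cg p j + 16 * cg p (j + 1) = z
  · exact absurd (by rw [zi, zj]) dn
  · obtain ⟨c, -, c1, c2, c3⟩ := key j hj zj
    refine fin c c1 ?_ c3
    rw [← c2, ← eq, show a = cg p i by omega, show b = cg p (i + 1) by omega]
  · obtain ⟨c, -, c1, c2, c3⟩ := key i (by omega) zi
    refine fin c c1 ?_ c3
    rw [← c2, eq, show a = cg p j by omega, show b = cg p (j + 1) by omega]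
  · obtain ⟨c, c0, c1, c2, -⟩ := key i (by omega) zi
    obtain ⟨d, d0, d1, d2, -⟩ := key j hj zj
    have : c = d := I.inj c1 d1 (by rw [← c2, ← d2, eq])
    exact absurd (by rw [← c0, ← d0, this]) dn

theorem hal_false (I : Inv g μ C Z nc) (V : Valid TL g) {v n q : ℕ} (hv : v < 10)
    (h : hal Z v n n q 10 0 = true) : False := by
  obtain ⟨acc, T, c, a1, a2, H⟩ := hal_spec Z v n n q 10 0 ∅ h le_rfl (by simp)
  have K : ∀ y ∈ T, ∀ k < 16, acc.testBit k = false → Kill μ nc (g v y) k := by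
    intro y hy k hk hb
    obtain ⟨a, b, d⟩ := H y hy
    rcases d k hk hb with d | d
    · exact I.kil v hv y a b.symm k hk d
    · rw [V.sym v hv y a]
      exact I.kil y a v hv b k hk d
  have le := I.le
  have E : ∀ y ∈ T, ∃ j, j < nc ∧ g v y = μ j := fun y hy =>
    (K y hy 15 (by norm_num) (Nat.testBit_lt_two_pow a1)).2 (by omega)
  choose! f hf using E
  have : T.card ≤ ((Finset.range 15).filter fun k => acc.testBit k = true).card := by
    refine Finset.card_le_card_of_injOn f (fun y hy => ?_) (fun y hy z hz e => ?_)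
    · have := hf y hy
      simp only [Finset.coe_filter, Finset.mem_range, Set.mem_ofPred_eq]
      refine ⟨by omega, ?_⟩
      by_contra hb
      exact (K y hy (f y) (by omega) (by simpa using hb)).1 this.1 this.2
    · by_contra yz
      exact V.pro v hv y (H y hy).1 z (H z hz).1 (H y hy).2.1.symm (H z hz).2.1.symm yz
        (by rw [(hf y hy).2, (hf z hz).2, e])
  rw [pcnt_eq] at a2
  simp only [Finset.card_empty] at c
  omega

def Good (TL q : ℕ) : Prop :=
  ∀ g μ, Valid TL g → Set.InjOn μ (Set.Iio (q % 16)) →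
    (∀ i < q / 16 % 64, cg (q / 1024) (3 * i) < 10 → cg (q / 1024) (3 * i + 1) < 10 →
      cg (q / 1024) (3 * i + 2) < q % 16 →
      g (cg (q / 1024) (3 * i)) (cg (q / 1024) (3 * i + 1)) = μ (cg (q / 1024) (3 * i + 2))) →
    False

theorem y1 : ∀ v < 16, Nat.testBit 64512 v = false → v < 10 := by decide

theorem y2 : ∀ nc < 15, ∀ v < 16, Nat.testBit (65536 - 2 <<< nc + 1) v = false →
    1 ≤ v ∧ v ≤ nc := by decide

theorem lop_false (I : Inv g μ C Z nc) (V : Valid TL g) {pt : ℕ → ℕ} {i x : ℕ}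
    (G : ∀ j < i, Good TL (pt j)) (h : lop pt i C nc x = true) : False := by
  have e : lop pt i C nc x = (Nat.ble (x % 65536 + 1) i &&
    ((dis 10 (x / 65536 % 1099511627776) 64512 && dis (pt (x % 65536) % 16)
      (x / 72057594037927936) (65536 - 2 <<< nc + 1)) &&
    mat C (x / 65536 % 1099511627776) (x / 72057594037927936) (pt (x % 65536) / 16 % 64)
      (pt (x % 65536) / 1024))) := rfl
  simp only [e, Bool.and_eq_true, Nat.ble_eq] at h
  obtain ⟨hj, ⟨d1, d2⟩, m⟩ := h
  generalize x / 65536 % 1099511627776 = π at *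
  generalize x / 72057594037927936 = ν at *
  have p1 : ∀ a < 10, cg π a < 10 := fun a ha => y1 _ (cg_lt _ _) (dis_spec _ _ _ d1 a ha).1
  have le := I.le
  have p2 : ∀ k < pt (x % 65536) % 16, 1 ≤ cg ν k ∧ cg ν k ≤ nc := fun k hk =>
    y2 nc (by omega) _ (cg_lt _ _) (dis_spec _ _ _ d2 k hk).1
  refine G _ hj _ (fun k => μ (cg ν k - 1)) (V.comp p1 (dis_inj d1)) (fun k hk l hl e => ?_)
    fun t ht a b c => ?_
  · have a := p2 k hk
    have b := p2 l hl
    have := I.inj (show cg ν k - 1 < nc by omega) (show cg ν l - 1 < nc by omega) e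
    exact dis_inj d2 hk hl (by omega)
  · have e := mat_spec _ _ _ _ _ m t ht
    have := p2 _ c
    have := (I.col _ (p1 _ a) _ (p1 _ b) (by omega)).2
    rwa [e] at this

theorem y3 : ∀ w < 14, ∀ k < 16, (Nat.testBit (1 <<< w) k = true → k = w) ∧
    (Nat.testBit (65536 - 1 <<< w) k = true → w ≤ k) ∧ 1 <<< w < 65536 ∧
    65536 - 1 <<< w < 65536 := by decide

def Snd (g : ℕ → ℕ → ℕ) (f : ℕ → ℕ → ℕ → ℕ → ℕ) : Prop :=
  ∀ C Z nc s μ, f C Z nc s ≠ 0 → ¬ Inv g μ C Z nc

theorem opS_false {f : ℕ → ℕ → ℕ → ℕ → ℕ} (F : Snd g f) (I : Inv g μ C Z nc) (V : Valid TL g)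
    {s a b w : ℕ} (h : opS f C Z nc s a b w ≠ 0) : False := by
  have e : opS f C Z nc s a b w = @Bool.rec (fun _ => ℕ) 0
    (@Bool.rec (fun _ => ℕ) (f C (kil Z (a + 16 * b) (@Bool.rec (fun _ => ℕ)
        (1 <<< w) (65536 - 1 <<< w) (Nat.beq w nc))) nc (f (setC C a b w) (setZ Z a b w)
        (@Bool.rec (fun _ => ℕ) nc (nc + 1) (Nat.beq w nc)) (s >>> 14))) 0
      (Nat.beq (f (setC C a b w) (setZ Z a b w)
        (@Bool.rec (fun _ => ℕ) nc (nc + 1) (Nat.beq w nc)) (s >>> 14)) 0))
    (okS C nc a b w) := rfl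
  simp only [brec, Nat.beq_eq] at e
  rw [e] at h
  by_cases ok : okS C nc a b w = true
  swap
  · exact h (if_neg ok)
  rw [if_pos ok] at h
  obtain ⟨ha, hb, ab, wn, w13, -⟩ := okS_spec ok
  by_cases hw : w = nc
  · simp only [if_pos hw] at h
    split_ifs at h with h0
    · exact h rfl
    by_cases hγ : ∀ j < nc, g a b ≠ μ j
    · exact F _ _ _ _ _ h0 ((I.ext (by omega) hγ).set V ok (by omega)
        (by rw [hw, Function.update_self]))
    · push Not at hγ
      refine F _ _ _ _ _ h (I.kill (y3 w (by omega) 0 (by omega)).2.2.2 ?_)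
      intro x hx y hy e k hk hb
      have := (y3 w (by omega) k hk).2.1 hb
      rw [show x = a by omega, show y = b by omega]
      exact ⟨fun h1 => absurd h1 (by omega), fun _ => hγ⟩
  · simp only [if_neg hw] at h
    split_ifs at h with h0
    · exact h rfl
    by_cases hγ : g a b = μ w
    · exact F _ _ _ _ _ h0 (I.set V ok (by omega) hγ)
    · refine F _ _ _ _ _ h (I.kill (y3 w (by omega) 0 (by omega)).2.2.1 ?_)
      intro x hx y hy e k hk hb
      have := (y3 w (by omega) k hk).1 hb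
      rw [show x = a by omega, show y = b by omega, this]
      exact ⟨fun _ => hγ, fun h1 => absurd h1 (by omega)⟩

theorem run_snd (V : Valid TL g) {pt : ℕ → ℕ} {i : ℕ} (G : ∀ j < i, Good TL (pt j)) :
    ∀ f, Snd g (run pt i TL f)
  | 0 => fun _ _ _ _ _ h => absurd rfl h
  | f + 1 => fun C Z nc s μ h I => by
    have F := run_snd V G f
    have e : run pt i TL (f + 1) C Z nc s = (fun x0 : ℕ => (fun x : ℕ =>
      @Bool.rec (fun _ => ℕ)
        (@Bool.rec (fun _ => ℕ)
          (@Bool.rec (fun _ => ℕ) 0 (Nat.shiftRight s 118) (lop pt i C nc x))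
          (opS (run pt i TL f) C Z nc s (Nat.mod x 16) (cg x 1) (cg x 2))
          (Nat.beq (Nat.mod x0 4) 1))
        (@Bool.rec (fun _ => ℕ) (opH Z s x) (opP (run pt i TL f) TL C Z nc s x)
          (Nat.beq (Nat.mod x0 4) 0))
        (Nat.beq (Nat.mod x0 2) 0)) (Nat.div x0 4))
      (Nat.mod s 332306998946228968225951765070086144) := rfl
    rw [e] at h
    simp only [brec] at h
    generalize Nat.div (Nat.mod s 332306998946228968225951765070086144) 4 = x at h
    split_ifs at h with h1 h2 h3 h4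
    · have e : opP (run pt i TL f) TL C Z nc s x = @Bool.rec (fun _ => ℕ)
        (run pt i TL f C (kil Z (x % 256) (65535 ^^^ (pop C TL x % 32768 / 2))) nc
          (s >>> (14 + 4 * TL))) 0 (Nat.beq (pop C TL x) 0) := rfl
      rw [e, brec] at h
      simp only [Nat.beq_eq] at h
      split_ifs at h with h0
      · exact h rfl
      refine F _ _ _ _ _ h (I.kill ?_ (pop_spec I V h0))
      exact Nat.xor_lt_two_pow (n := 16) (by norm_num) (by omega)
    · have e : opH Z s x = @Bool.rec (fun _ => ℕ) 0 (s >>> (10 + 4 * cg x 1))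
        (Nat.ble (x % 16) 9 && hal Z (x % 16) (cg x 1) (cg x 1) (x / 256) 10 0) := rfl
      rw [e, brec] at h
      split_ifs at h with h0
      · simp only [Bool.and_eq_true, Nat.ble_eq] at h0
        exact hal_false I V (by omega) h0.2
      · exact h rfl
    · exact opS_false F I V h
    · exact lop_false I V G h4
    · exact h rfl

theorem ini_spec (V : Valid TL g) {mc : ℕ} {k : ℕ → ℕ → Bool} : ∀ (n q C Z : ℕ),
    ini mc k n q C Z = true → Inv g μ C Z mc →
    (∀ i < n, cg q (3 * i) < 10 → cg q (3 * i + 1) < 10 → cg q (3 * i + 2) < mc →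
      g (cg q (3 * i)) (cg q (3 * i + 1)) = μ (cg q (3 * i + 2))) →
    ∃ C Z, k C Z = true ∧ Inv g μ C Z mc
  | 0, _, C, Z, h, I, _ => ⟨C, Z, h, I⟩
  | n + 1, q, C, Z, h, I, H => by
    have e : ini mc k (n + 1) q C Z = ((okS C mc (q % 16) (cg q 1) (cg q 2) &&
      Nat.ble (cg q 2 + 1) mc) && ini mc k n (q / 4096) (setC C (q % 16) (cg q 1) (cg q 2))
        (setZ Z (q % 16) (cg q 1) (cg q 2))) := rfl
    simp only [e, Bool.and_eq_true, Nat.ble_eq, ← cg_zero] at h
    obtain ⟨⟨ok, hk⟩, h⟩ := h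
    obtain ⟨ha, hb, -⟩ := okS_spec ok
    refine ini_spec V n _ _ _ h (I.set V ok hk (H 0 (by omega) ha hb hk)) fun i hi => ?_
    simp only [cg_div3]
    have := H (i + 1) (by omega)
    rwa [show 3 * (i + 1) = 3 * i + 3 by ring, show 3 * i + 3 + 1 = 3 * i + 1 + 3 by ring,
      show 3 * i + 3 + 2 = 3 * i + 2 + 3 by ring] at this

theorem chk_good {pt : ℕ → ℕ} {i s : ℕ} (G : ∀ j < i, Good TL (pt j))
    (h : chk pt TL i s = true) : Good TL (pt i) := by
  intro g μ V hμ H
  have e : chk pt TL i s = (Nat.ble (pt i % 16) 14 && ini (pt i % 16)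
    (fun C Z => Nat.ble 1 (run pt i TL 1000 C Z (pt i % 16) s))
    (pt i / 16 % 64) (pt i / 1024) 0 0) := rfl
  simp only [e, Bool.and_eq_true, Nat.ble_eq] at h
  obtain ⟨C, Z, h1, I⟩ := ini_spec V _ _ _ _ h.2
    ⟨h.1, hμ, fun a _ b _ h0 => absurd (by simp [cg_eq]) h0, fun a _ b _ _ k _ h0 => by simp at h0⟩ H
  rw [Nat.ble_eq] at h1
  exact run_snd V G 1000 _ _ _ s _ (by omega) I

theorem all_good {pt : ℕ → ℕ} : ∀ (l : List ℕ) (i : ℕ), all pt TL l i = true →
    (∀ j < i, Good TL (pt j)) → ∀ j < i + l.length, Good TL (pt j)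
  | [], _, _, G => G
  | s :: l, i, h, G => by
    have e : all pt TL (s :: l) i = (chk pt TL i s && all pt TL l (i + 1)) := rfl
    rw [e, Bool.and_eq_true] at h
    have := all_good l (i + 1) h.2 fun j hj => by
      rcases Nat.lt_succ_iff_lt_or_eq.1 hj with hj | rfl
      · exact G j hj
      · exact chk_good G h.1
    intro j hj
    exact this j (by simp at hj; omega)

theorem all_good' {pt : ℕ → ℕ} {l : List ℕ} {i n : ℕ} (m : ℕ) (h : all pt TL l i = true)
    (hl : l.length = n) (hm : m = i + n) (G : ∀ j < i, Good TL (pt j)) :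
    ∀ j < m, Good TL (pt j) := by
  rw [hm, ← hl]
  exact all_good l i h G

theorem extend : ∀ (d t : ℕ) (p : ℕ → ℕ), t + d = 10 → (∀ i < t, p i < 10) →
    Set.InjOn p (Set.Iio t) → ∃ π : ℕ → ℕ, (∀ i < t, π i = p i) ∧ (∀ i < 10, π i < 10) ∧
      Set.InjOn π (Set.Iio 10)
  | 0, t, p, e, h1, h2 => by
    obtain rfl : t = 10 := e
    exact ⟨p, fun _ _ => rfl, h1, h2⟩
  | d + 1, t, p, e, h1, h2 => by
    obtain ⟨x, hx, nx⟩ := Finset.exists_mem_notMem_of_card_lt_card
      (s := (Finset.range t).image p) (t := Finset.range 10)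
      (lt_of_le_of_lt Finset.card_image_le (by simp; omega))
    simp only [Finset.mem_image, Finset.mem_range, not_exists, not_and] at hx nx
    obtain ⟨π, a, b⟩ := extend d (t + 1) (Function.update p t x) (by omega) (fun i hi => by
      by_cases h : i = t
      · rw [h, Function.update_self]
        exact hx
      · rw [Function.update_of_ne h]
        exact h1 i (by omega)) (fun i hi j hj e => by
      simp only [Set.mem_Iio] at hi hj
      by_cases c1 : i = t <;> by_cases c2 : j = t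
      · rw [c1, c2]
      · rw [c1, Function.update_self, Function.update_of_ne c2] at e
        exact absurd e.symm (nx j (by omega))
      · rw [c2, Function.update_self, Function.update_of_ne c1] at e
        exact absurd e (nx i (by omega))
      · rw [Function.update_of_ne c1, Function.update_of_ne c2] at e
        exact h2 (show i < t by omega) (show j < t by omega) e)
    exact ⟨π, fun i hi => by rw [a i (by omega), Function.update_of_ne hi.ne], b⟩

theorem Valid.down {t q : ℕ} (V : Valid (t + 1) g) (ht : t < 10) (G : Good (t + 1) q)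
    (h : q % 16 = t ∧ q / 16 % 64 = t ∧ ∀ i < t, cg (q / 1024) (3 * i) = i ∧
      cg (q / 1024) (3 * i + 1) = i + 1 ∧ cg (q / 1024) (3 * i + 2) = i) : Valid t g := by
  refine ⟨V.sym, V.pro, fun p h1 h2 => ?_⟩
  by_contra H
  push Not at H
  obtain ⟨π, a, b, c⟩ := extend (9 - t) (t + 1) p (by omega) (fun i hi => h1 i (by omega)) h2
  refine G _ (fun i => g (p i) (p (i + 1))) (V.comp b c) (fun i hi j hj e => ?_) fun i hi => ?_
  · rw [h.1] at hi hj
    rcases lt_trichotomy i j with l | l | l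
    · exact absurd e (H i j l hj)
    · exact l
    · exact absurd e.symm (H j i l hi)
  · rw [h.2.1] at hi
    obtain ⟨x, y, z⟩ := h.2.2 i hi
    rw [x, y, z]
    intro _ _ _
    rw [a i (by omega), a (i + 1) (by omega)]

theorem Valid.one (V : Valid 1 g) : False := by
  obtain ⟨i, j, a, b, -⟩ := V.nor id (fun i hi => by simp; omega) (Set.injOn_id _)
  omega

end Pool.Agent.H.MP_50639e_co
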