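import Mathlib

set_option autoImplicit false

namespace Pool.Agent.H.MP_50639e_co

/-- colour entry -/
def cg (C x : ℕ) : ℕ := Nat.mod (Nat.shiftRight C (Nat.mul 4 x)) 16

/-- killed mask -/
def zg (Z x : ℕ) : ℕ := Nat.mod (Nat.shiftRight Z (Nat.mul 16 x)) 65536

/-- walk along coloured edges; `Y` collects colours and vertices -/
noncomputable def seg (C n : ℕ) : ℕ → ℕ → ℕ :=
  @Nat.rec (fun _ => ℕ → ℕ → ℕ) (fun _ Y => Y)
    (fun _ ih p Y => (fun p' : ℕ => (fun t : ℕ =>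
      @Bool.rec (fun _ => ℕ) 0 (ih p' (Nat.lor Y t)) (Nat.beq (Nat.land Y t) 0))
      (Nat.lor (Nat.shiftLeft 1 (Nat.mod (Nat.shiftRight C (Nat.mul 4 (Nat.mod p 256))) 16))
        (Nat.shiftLeft 65536 (Nat.mod p' 16)))) (Nat.div p 16)) n

/-- distinct digits -/
noncomputable def dis (n : ℕ) : ℕ → ℕ → Bool :=
  @Nat.rec (fun _ => ℕ → ℕ → Bool) (fun _ _ => true)
    (fun _ ih p Y => (fun t : ℕ =>
      @Bool.rec (fun _ => Bool) false (ih (Nat.div p 16) (Nat.lor Y t))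
        (Nat.beq (Nat.land Y t) 0)) (Nat.shiftLeft 1 (Nat.mod p 16))) n

/-- pattern edges match -/
noncomputable def mat (C π μ n : ℕ) : ℕ → Bool :=
  @Nat.rec (fun _ => ℕ → Bool) (fun _ => true)
    (fun _ ih q => @Bool.rec (fun _ => Bool) false (ih (Nat.div q 4096))
      (Nat.beq (cg C (Nat.add (cg π (Nat.mod q 16)) (Nat.mul 16 (cg π (cg q 1)))))
        (cg μ (cg q 2)))) n

noncomputable def pcnt (a n : ℕ) : ℕ :=
  @Nat.rec (fun _ => ℕ) 0 (fun i r => Nat.add r (Nat.mod (Nat.shiftRight a i) 2)) n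

/-- Hall test -/
noncomputable def hal (Z v cnt n : ℕ) : ℕ → ℕ → ℕ → Bool :=
  @Nat.rec (fun _ => ℕ → ℕ → ℕ → Bool)
    (fun _ _ acc => @Bool.rec (fun _ => Bool)
      (and (Nat.ble acc 32767) (Nat.ble (Nat.succ (pcnt acc 15)) cnt)) (Nat.ble 1 cnt)
      (Nat.beq acc 0))
    (fun _ ih q pv acc => (fun y : ℕ => @Bool.rec (fun _ => Bool) false
      (@Bool.rec (fun _ => Bool) (ih (Nat.div q 16) y (Nat.lor acc (Nat.xor 65535 (Nat.lor
        (zg Z (Nat.add v (Nat.mul 16 y))) (zg Z (Nat.add y (Nat.mul 16 v)))))))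
        false (Nat.beq y v)) (Nat.ble (Nat.succ y) pv)) (Nat.mod q 16)) n

def row : ℕ := 2 ^ 0 ||| 2 ^ 256 ||| 2 ^ 512 ||| 2 ^ 768 ||| 2 ^ 1024 ||| 2 ^ 1280 ||| 2 ^ 1536 |||
  2 ^ 1792 ||| 2 ^ 2048 ||| 2 ^ 2304

def setC (C a b w : ℕ) : ℕ :=
  Nat.lor C (Nat.lor (Nat.shiftLeft (Nat.succ w) (Nat.mul 4 (Nat.add a (Nat.mul 16 b))))
    (Nat.shiftLeft (Nat.succ w) (Nat.mul 4 (Nat.add b (Nat.mul 16 a)))))

def setZ (Z a b w : ℕ) : ℕ :=
  Nat.lor Z (Nat.lor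
    (Nat.shiftLeft (Nat.xor row (Nat.shiftLeft 1 (Nat.mul 256 b))) (Nat.add (Nat.mul 16 a) w))
    (Nat.shiftLeft (Nat.xor row (Nat.shiftLeft 1 (Nat.mul 256 a))) (Nat.add (Nat.mul 16 b) w)))

def kil (Z x m : ℕ) : ℕ := Nat.lor Z (Nat.shiftLeft m (Nat.mul 16 x))

/-- an edge may be coloured -/
def okS (C nc a b w : ℕ) : Bool :=
  and (and (and (Nat.ble a 9) (Nat.ble b 9)) (and (not (Nat.beq a b)) (Nat.ble w nc)))
    (and (Nat.ble w 13) (Nat.beq (Nat.add (cg C (Nat.add a (Nat.mul 16 b)))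
      (cg C (Nat.add b (Nat.mul 16 a)))) 0))

noncomputable def pop (C TL x : ℕ) : ℕ :=
  (fun p : ℕ => @Bool.rec (fun _ => ℕ) 0
    (seg (Nat.lor C (Nat.shiftLeft 15 (Nat.mul 4 (Nat.mod x 256)))) TL p
      (Nat.lor 4227858433 (Nat.shiftLeft 65536 (Nat.mod p 16)))) (Nat.ble (Nat.mod p 16) 9))
    (Nat.div x 256)

noncomputable def lop (pt : ℕ → ℕ) (i C nc x : ℕ) : Bool :=
  (fun j π μ : ℕ => (fun q : ℕ => and (Nat.ble (Nat.succ j) i)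
    (and (and (dis 10 π 64512) (dis (Nat.mod q 16) μ
      (Nat.succ (Nat.sub 65536 (Nat.shiftLeft 2 nc)))))
    (mat C π μ (Nat.mod (Nat.div q 16) 64) (Nat.div q 1024)))) (pt j))
  (Nat.mod x 65536) (Nat.mod (Nat.div x 65536) 1099511627776) (Nat.div x 72057594037927936)

noncomputable def opS (ih : ℕ → ℕ → ℕ → ℕ → ℕ) (C Z nc s a b w : ℕ) : ℕ :=
  @Bool.rec (fun _ => ℕ) 0
    ((fun r : ℕ => @Bool.rec (fun _ => ℕ)
      (ih C (kil Z (Nat.add a (Nat.mul 16 b)) (@Bool.rec (fun _ => ℕ)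
        (Nat.shiftLeft 1 w) (Nat.sub 65536 (Nat.shiftLeft 1 w)) (Nat.beq w nc))) nc r) 0
      (Nat.beq r 0))
      (ih (setC C a b w) (setZ Z a b w)
        (@Bool.rec (fun _ => ℕ) nc (Nat.succ nc) (Nat.beq w nc)) (Nat.shiftRight s 14)))
    (okS C nc a b w)

noncomputable def opP (ih : ℕ → ℕ → ℕ → ℕ → ℕ) (TL C Z nc s x : ℕ) : ℕ :=
  (fun Y : ℕ => @Bool.rec (fun _ => ℕ)
    (ih C (kil Z (Nat.mod x 256) (Nat.xor 65535 (Nat.div (Nat.mod Y 32768) 2))) nc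
      (Nat.shiftRight s (Nat.add 14 (Nat.mul 4 TL)))) 0 (Nat.beq Y 0)) (pop C TL x)

noncomputable def opH (Z s x : ℕ) : ℕ :=
  (fun v n : ℕ => @Bool.rec (fun _ => ℕ) 0 (Nat.shiftRight s (Nat.add 10 (Nat.mul 4 n)))
    (and (Nat.ble v 9) (hal Z v n n (Nat.div x 256) 10 0))) (Nat.mod x 16) (cg x 1)

noncomputable def run (pt : ℕ → ℕ) (i TL f : ℕ) : ℕ → ℕ → ℕ → ℕ → ℕ :=
  @Nat.rec (fun _ => ℕ → ℕ → ℕ → ℕ → ℕ) (fun _ _ _ _ => 0)
    (fun _ ih C Z nc s => (fun x0 : ℕ => (fun x : ℕ =>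
      @Bool.rec (fun _ => ℕ)
        (@Bool.rec (fun _ => ℕ)
          (@Bool.rec (fun _ => ℕ) 0 (Nat.shiftRight s 118) (lop pt i C nc x))
          (opS ih C Z nc s (Nat.mod x 16) (cg x 1) (cg x 2)) (Nat.beq (Nat.mod x0 4) 1))
        (@Bool.rec (fun _ => ℕ) (opH Z s x) (opP ih TL C Z nc s x) (Nat.beq (Nat.mod x0 4) 0))
        (Nat.beq (Nat.mod x0 2) 0)) (Nat.div x0 4))
      (Nat.mod s 332306998946228968225951765070086144)) f

/-- build the start state from a pattern, then run -/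
noncomputable def ini (mc : ℕ) (k : ℕ → ℕ → Bool) (n : ℕ) : ℕ → ℕ → ℕ → Bool :=
  @Nat.rec (fun _ => ℕ → ℕ → ℕ → Bool) (fun _ C Z => k C Z)
    (fun _ ih q C Z => and (and (okS C mc (Nat.mod q 16) (cg q 1) (cg q 2))
      (Nat.ble (Nat.succ (cg q 2)) mc))
      (ih (Nat.div q 4096) (setC C (Nat.mod q 16) (cg q 1) (cg q 2))
        (setZ Z (Nat.mod q 16) (cg q 1) (cg q 2)))) n

noncomputable def chk (pt : ℕ → ℕ) (TL i s : ℕ) : Bool :=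
  (fun q : ℕ => and (Nat.ble (Nat.mod q 16) 14) (ini (Nat.mod q 16)
    (fun C Z => Nat.ble 1 (run pt i TL 1000 C Z (Nat.mod q 16) s))
    (Nat.mod (Nat.div q 16) 64) (Nat.div q 1024) 0 0)) (pt i)

noncomputable def all (pt : ℕ → ℕ) (TL : ℕ) (l : List ℕ) : ℕ → Bool :=
  @List.rec ℕ (fun _ => ℕ → Bool) (fun _ => true)
    (fun s _ ih i => and (chk pt TL i s) (ih (Nat.succ i))) l

/-- two-level table -/
noncomputable def look (l : List ℕ) (j : ℕ) : ℕ :=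
  Nat.mod (Nat.shiftRight (l.getD (Nat.div j 256) 0) (Nat.mul 512 (Nat.mod j 256))) (2 ^ 512)

end Pool.Agent.H.MP_50639e_co
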