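import Pool.Agent.H.MP_50639e_co.B
import Pool.Agent.H.MP_50639e_co.E0
import Pool.Agent.H.MP_50639e_co.E1
import Pool.Agent.H.MP_50639e_co.E2
import Pool.Agent.H.MP_50639e_co.E3

set_option autoImplicit false

namespace Pool.Agent.H.MP_50639e_co

theorem g2 : Good 2 (look e2T 0) := by
  have h0 : ∀ j < 0, Good 2 (look e2T j) := fun _ h => absurd h (by omega)
  have h1 := all_good' 1 e20_0 e20_0l rfl h0
  exact h1 0 (by omega)

theorem g3 : Good 3 (look e3T 0) := by
  have h0 : ∀ j < 0, Good 3 (look e3T j) := fun _ h => absurd h (by omega)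
  have h1 := all_good' 1 e30_0 e30_0l rfl h0
  exact h1 0 (by omega)

theorem g4 : Good 4 (look e4T 0) := by
  have h0 : ∀ j < 0, Good 4 (look e4T j) := fun _ h => absurd h (by omega)
  have h1 := all_good' 1 e40_0 e40_0l rfl h0
  exact h1 0 (by omega)

theorem g5 : Good 5 (look e5T 0) := by
  have h0 : ∀ j < 0, Good 5 (look e5T j) := fun _ h => absurd h (by omega)
  have h1 := all_good' 1 e50_0 e50_0l rfl h0
  exact h1 0 (by omega)

theorem g6 : Good 6 (look e6T 0) := by
  have h0 : ∀ j < 0, Good 6 (look e6T j) := fun _ h => absurd h (by omega)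
  have h1 := all_good' 1 e60_0 e60_0l rfl h0
  exact h1 0 (by omega)

theorem g7 : Good 7 (look e7T 6) := by
  have h0 : ∀ j < 0, Good 7 (look e7T j) := fun _ h => absurd h (by omega)
  have h1 := all_good' 7 e70_0 e70_0l rfl h0
  exact h1 6 (by omega)

theorem g8 : Good 8 (look e8T 27) := by
  have h0 : ∀ j < 0, Good 8 (look e8T j) := fun _ h => absurd h (by omega)
  have h1 := all_good' 28 e80_0 e80_0l rfl h0
  exact h1 27 (by omega)

theorem g9 : Good 9 (look e9T 302) := by
  have h0 : ∀ j < 0, Good 9 (look e9T j) := fun _ h => absurd h (by omega)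
  have h1 := all_good' 5 e90_0 e90_0l rfl h0
  have h2 := all_good' 10 e90_1 e90_1l rfl h1
  have h3 := all_good' 15 e90_2 e90_2l rfl h2
  have h4 := all_good' 22 e90_3 e90_3l rfl h3
  have h5 := all_good' 28 e90_4 e90_4l rfl h4
  have h6 := all_good' 31 e90_5 e90_5l rfl h5
  have h7 := all_good' 39 e91_0 e91_0l rfl h6
  have h8 := all_good' 45 e91_1 e91_1l rfl h7
  have h9 := all_good' 49 e91_2 e91_2l rfl h8
  have h10 := all_good' 58 e91_3 e91_3l rfl h9
  have h11 := all_good' 64 e91_4 e91_4l rfl h10
  have h12 := all_good' 65 e91_5 e91_5l rfl h11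
  have h13 := all_good' 69 e92_0 e92_0l rfl h12
  have h14 := all_good' 82 e92_1 e92_1l rfl h13
  have h15 := all_good' 88 e92_2 e92_2l rfl h14
  have h16 := all_good' 108 e92_3 e92_3l rfl h15
  have h17 := all_good' 120 e92_4 e92_4l rfl h16
  have h18 := all_good' 122 e92_5 e92_5l rfl h17
  have h19 := all_good' 131 e93_0 e93_0l rfl h18
  have h20 := all_good' 148 e93_1 e93_1l rfl h19
  have h21 := all_good' 195 e93_2 e93_2l rfl h20
  have h22 := all_good' 225 e93_3 e93_3l rfl h21
  have h23 := all_good' 254 e93_4 e93_4l rfl h22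
  have h24 := all_good' 303 e93_5 e93_5l rfl h23
  exact h24 302 (by omega)

theorem not_valid {g : ℕ → ℕ → ℕ} (V : Valid 9 g) : False := by
  have V : Valid 8 g := V.down (by omega) g9 (by decide +kernel)
  have V : Valid 7 g := V.down (by omega) g8 (by decide +kernel)
  have V : Valid 6 g := V.down (by omega) g7 (by decide +kernel)
  have V : Valid 5 g := V.down (by omega) g6 (by decide +kernel)
  have V : Valid 4 g := V.down (by omega) g5 (by decide +kernel)
  have V : Valid 3 g := V.down (by omega) g4 (by decide +kernel)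
  have V : Valid 2 g := V.down (by omega) g3 (by decide +kernel)
  have V : Valid 1 g := V.down (by omega) g2 (by decide +kernel)
  exact V.one

end Pool.Agent.H.MP_50639e_co
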